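import Pool.Agent.Lib.Pa1e890.Inst

set_option autoImplicit false
open Filter Topology

namespace Pool.Agent.Results.MP_a1e890_an.DenseC1Norms

/-- The ordinal interval `[0, ω₁]`, with the order topology. -/
abbrev K : Type 1 := Set.Iic (Ordinal.omega.{0} 1)

instance : CompactSpace K := by
  rw [← isCompact_iff_compactSpace, ← Set.Icc_bot]
  exact isCompact_Icc

/-- The real Banach space `C[0, ω₁]` with the supremum norm. -/
abbrev X : Type 1 := C(K, ℝ)

/-- `p` is an equivalent norm on `C[0, ω₁]`. -/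
def IsEquivNorm (p : Seminorm ℝ X) : Prop :=
  ∃ c C : ℝ, 0 < c ∧ ∀ x : X, c * ‖x‖ ≤ p x ∧ p x ≤ C * ‖x‖

/-- `p` is `C¹`-smooth away from zero: Fréchet differentiable with norm continuous derivative. -/
def IsC1Smooth (p : Seminorm ℝ X) : Prop :=
  ∃ D : X → (X →L[ℝ] ℝ), (∀ x : X, x ≠ 0 → HasFDerivAt (fun z => p z) (D x) x) ∧
    ContinuousOn D {x : X | x ≠ 0}

/-- The distance of two equivalent norms: the supremum of their difference over the unit ball. -/
noncomputable def normDist (p q : Seminorm ℝ X) : ℝ :=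
  sSup {r : ℝ | ∃ x : X, ‖x‖ ≤ 1 ∧ r = |p x - q x|}

/-- The `C¹`-smooth equivalent norms are dense in the equivalent norms of `C[0, ω₁]`; the
approximating norm can be taken below the given one, with the quotient at most `1 + ε`. -/
theorem result (p : Seminorm ℝ X) (hp : IsEquivNorm p) (ε : ℝ) (hε : 0 < ε) :
    ∃ q : Seminorm ℝ X, IsEquivNorm q ∧ IsC1Smooth q ∧ normDist p q < ε ∧
      ∀ x : X, q x ≤ p x ∧ p x ≤ (1 + ε) * q x := by
  obtain ⟨c, C, hc, hp⟩ := hp
  have hinst : Pool.Agent.Lib.Pa1e890.OmegaLike K := by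
    have h : (Cardinal.aleph.{0} 1).ord = Ordinal.omega 1 := Cardinal.ord_aleph 1
    have h2 : Pool.Agent.Lib.Pa1e890.OmegaLike (Set.Iic (Cardinal.aleph.{0} 1).ord) :=
      inferInstance
    rw [h] at h2
    exact h2
  -- transfer to bounded continuous functions
  let e : X ≃ₗᵢ[ℝ] BoundedContinuousFunction K ℝ :=
    ContinuousMap.linearIsometryBoundedOfCompact K ℝ ℝ
  let p' : Seminorm ℝ (BoundedContinuousFunction K ℝ) :=
    p.comp (e.symm.toLinearEquiv : BoundedContinuousFunction K ℝ →ₗ[ℝ] X)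
  have hp' : ∀ y, p' y = p (e.symm y) := fun y => rfl
  have hC : 0 < |C| + 1 := by positivity
  have hpC : ∀ x : X, p x ≤ (|C| + 1) * ‖x‖ := fun x => (hp x).2.trans
    (mul_le_mul_of_nonneg_right (by linarith [le_abs_self C]) (norm_nonneg x))
  -- the precision
  set θ : ℝ := min (1 / 4) (min (ε / 4) (ε / (8 * (|C| + 1)))) with hθ
  have hθ0 : 0 < θ := by positivity
  have hθ1 : θ ≤ 1 / 4 := min_le_left _ _
  have hθ2 : θ ≤ ε / 4 := (min_le_right _ _).trans (min_le_left _ _)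
  have hθ3 : θ ≤ ε / (8 * (|C| + 1)) := (min_le_right _ _).trans (min_le_right _ _)
  obtain ⟨q', ⟨c', hc', hq1⟩, ⟨C', hC', hq2⟩, hq3, hq4⟩ :=
    Pool.Agent.Lib.Pa1e890.density (Ω := K) p'
      ⟨c, hc, fun y => by rw [hp', ← e.symm.norm_map y]; exact (hp _).1⟩
      ⟨|C| + 1, hC, fun y => by rw [hp', ← e.symm.norm_map y]; exact hpC _⟩ (θ * c)
      (by positivity)
  let q0 : Seminorm ℝ X := q'.comp (e.toLinearEquiv : X →ₗ[ℝ] BoundedContinuousFunction K ℝ)
  have hq0 : ∀ x, q0 x = q' (e x) := fun x => rfl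
  -- closeness in homogeneous form
  have hclose : ∀ x : X, |p x - q0 x| ≤ θ * p x := by
    intro x
    rcases eq_or_ne x 0 with rfl | hx
    · rw [map_zero, map_zero]; simp
    have hxp : 0 < ‖x‖ := norm_pos_iff.2 hx
    have h1 := hq4 (e (‖x‖⁻¹ • x)) (by
      rw [e.norm_map, norm_smul, norm_inv, norm_norm, inv_mul_cancel₀ hxp.ne'])
    rw [hp', e.symm_apply_apply, ← hq0, map_smul_eq_mul, map_smul_eq_mul, norm_inv, norm_norm,
      ← mul_sub, abs_mul, abs_of_pos (inv_pos.2 hxp), inv_mul_lt_iff₀ hxp] at h1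
    have h2 := (hp x).1
    nlinarith
  have h1θ : 0 < 1 + θ := by linarith
  let r : NNReal := ⟨(1 + θ)⁻¹, (inv_pos.2 h1θ).le⟩
  let q : Seminorm ℝ X := r • q0
  have hq : ∀ x, q x = (1 + θ)⁻¹ * q0 x := fun x => rfl
  have hqp : ∀ x, q x ≤ p x := by
    intro x
    have h1 := (abs_le.1 (hclose x)).1
    rw [hq, inv_mul_le_iff₀ h1θ]
    linarith
  have hpq : ∀ x, p x ≤ (1 + ε) * q x := by
    intro x
    have h1 := (abs_le.1 (hclose x)).2
    have h2 : (1 - θ) * p x ≤ q0 x := by linarith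
    have h3 : 0 ≤ p x := apply_nonneg p x
    rw [hq, ← mul_assoc]
    have h4 : (1 : ℝ) ≤ (1 + ε) * (1 + θ)⁻¹ * (1 - θ) := by
      rw [mul_assoc, mul_comm (1 + θ)⁻¹, ← mul_assoc, ← div_eq_mul_inv, le_div_iff₀ h1θ]
      nlinarith
    calc p x = 1 * p x := (one_mul _).symm
      _ ≤ ((1 + ε) * (1 + θ)⁻¹ * (1 - θ)) * p x := mul_le_mul_of_nonneg_right h4 h3
      _ = ((1 + ε) * (1 + θ)⁻¹) * ((1 - θ) * p x) := by ring
      _ ≤ ((1 + ε) * (1 + θ)⁻¹) * q0 x := mul_le_mul_of_nonneg_left h2 (by positivity)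
  refine ⟨q, ⟨(1 + ε)⁻¹ * c, C, by positivity, fun x => ⟨?_, (hqp x).trans (hp x).2⟩⟩, ?_, ?_,
    fun x => ⟨hqp x, hpq x⟩⟩
  · rw [mul_assoc, inv_mul_le_iff₀ (by linarith)]
    exact (hp x).1.trans (hpq x)
  · -- smoothness
    have hcd : ContDiffOn ℝ 1 (fun x => q x) {x : X | x ≠ 0} := by
      have h1 : ContDiffOn ℝ 1 (fun x : X => q' (e x)) {x : X | x ≠ 0} := by
        refine hq3.comp (e : X ≃L[ℝ] BoundedContinuousFunction K ℝ).contDiff.contDiffOn ?_
        intro x hx h0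
        apply hx
        have h2 : e x = 0 := h0
        rwa [map_eq_zero_iff e e.injective] at h2
      exact contDiffOn_const.mul h1
    have hopen : IsOpen {x : X | x ≠ 0} := isOpen_ne
    refine ⟨fderiv ℝ (fun x => q x), fun x hx => ?_, ?_⟩
    · exact ((hcd.differentiableOn (by norm_num) x hx).differentiableAt
        (hopen.mem_nhds hx)).hasFDerivAt
    · exact hcd.continuousOn_fderiv_of_isOpen hopen (by norm_num)
  · -- distance
    have hne : ({r : ℝ | ∃ x : X, ‖x‖ ≤ 1 ∧ r = |p x - q x|}).Nonempty :=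
      ⟨_, 0, by simp, rfl⟩
    have hle : normDist p q ≤ ε / 2 := by
      apply csSup_le hne
      rintro _ ⟨x, hx, rfl⟩
      have h1 := hclose x
      have h2 : p x ≤ |C| + 1 := by
        have := hpC x
        nlinarith
      have h3 : 0 ≤ p x := apply_nonneg p x
      have h4 := hqp x
      rw [abs_of_nonneg (by linarith)]
      have h5 : (1 - θ) * p x ≤ q0 x := by linarith [(abs_le.1 h1).2]
      have h6 : p x - q x ≤ 2 * θ * p x := by
        rw [hq]
        have h7 : (1 + θ)⁻¹ * ((1 - θ) * p x) ≤ (1 + θ)⁻¹ * q0 x :=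
          mul_le_mul_of_nonneg_left h5 (inv_pos.2 h1θ).le
        have h8 : 1 - 2 * θ ≤ (1 + θ)⁻¹ * (1 - θ) := by
          rw [inv_mul_eq_div, le_div_iff₀ h1θ]
          nlinarith
        have h9 : (1 - 2 * θ) * p x ≤ (1 + θ)⁻¹ * (1 - θ) * p x :=
          mul_le_mul_of_nonneg_right h8 h3
        nlinarith
      have h10 : 2 * θ * p x ≤ 2 * θ * (|C| + 1) := mul_le_mul_of_nonneg_left h2 (by positivity)
      have h11 : 2 * θ * (|C| + 1) ≤ ε / 4 := by
        rw [le_div_iff₀ (by positivity)] at hθ3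
        linarith
      linarith
    linarith

end Pool.Agent.Results.MP_a1e890_an.DenseC1Norms
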